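import Pool.Agent.Helper52.SG.Goals3

/-!
# Packet SG-KREK (project SG, MP_0a002a_al): Kreknin's theorem
-/

set_option autoImplicit false

namespace Pool.Agent.Helper98.SG.KREK

open Pool.Agent.Helper52.SG

section

variable {N : Type} [LieRing N] {p : ℕ}

/-- sums of left-normed brackets of elements of the `W w`, `w.val > k` -/
inductive Sp (k : ℕ) (W : ZMod p → AddSubgroup N) : ZMod p → N → Prop
  | zero (c : ZMod p) : Sp k W c 0
  | add (c : ZMod p) (x y : N) : Sp k W c x → Sp k W c y → Sp k W c (x + y)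
  | neg (c : ZMod p) (x : N) : Sp k W c x → Sp k W c (-x)
  | of (w : ZMod p) (x : N) : k < w.val → x ∈ W w → Sp k W w x
  | lie (c w : ZMod p) (x y : N) : Sp k W c x → k < w.val → y ∈ W w → Sp k W (c + w) ⁅x, y⁆

lemma jac (x y z : N) : ⁅x, ⁅y, z⁆⁆ = ⁅⁅x, y⁆, z⁆ + -⁅⁅x, z⁆, y⁆ := by
  rw [leibniz_lie x y z, ← lie_skew y ⁅x, z⁆]

lemma Sp.bracket {k : ℕ} {W : ZMod p → AddSubgroup N} {c' : ZMod p} {y : N} (hy : Sp k W c' y) :
    ∀ (c : ZMod p) (x : N), Sp k W c x → Sp k W (c + c') ⁅x, y⁆ := by
  induction hy with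
  | zero c' =>
    intro c x _
    rw [lie_zero]
    exact Sp.zero _
  | add c' y z _ _ h1 h2 =>
    intro c x hx
    rw [lie_add]
    exact Sp.add _ _ _ (h1 c x hx) (h2 c x hx)
  | neg c' y _ h1 =>
    intro c x hx
    rw [lie_neg]
    exact Sp.neg _ _ (h1 c x hx)
  | of w y hw hy =>
    intro c x hx
    exact Sp.lie c w x y hx hw hy
  | lie c' w y z _ hw hz h1 =>
    intro c x hx
    rw [jac]
    refine Sp.add _ _ _ ?_ (Sp.neg _ _ ?_)
    · have := Sp.lie (c + c') w ⁅x, y⁆ z (h1 c x hx) hw hz
      rwa [add_assoc] at this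
    · have := h1 (c + w) ⁅x, z⁆ (Sp.lie c w x z hx hw hz)
      have e : c + w + c' = c + (c' + w) := by ring
      rwa [e] at this

lemma Sp.mem {k : ℕ} {W : ZMod p → AddSubgroup N} (hW : GrF W) {c : ZMod p} {x : N}
    (hx : Sp k W c x) : x ∈ W c := by
  induction hx with
  | zero c => exact zero_mem _
  | add c x y _ _ h1 h2 => exact add_mem h1 h2
  | neg c x _ h1 => exact neg_mem h1
  | of w x _ hx => exact hx
  | lie c w x y _ _ hy h1 => exact hW.mul c w x h1 y hy

/-- one bracket: if `u ∈ W a` and `v` is a sum of left-normed brackets of elements of the `W w`,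
`w.val > j`, then `⁅u, v⁆` satisfies every additive property of the `⁅x, y⁆`, `y ∈ W w`, `w.val > j`. -/
lemma one {j : ℕ} {W : ZMod p → AddSubgroup N} (hW : GrF W) {b : ZMod p} {v : N}
    (hv : Sp j W b v) : ∀ (a d : ZMod p) (u : N), u ∈ W a → a + b = d → ∀ A : AddSubgroup N,
    (∀ c w x y, c + w = d → j < w.val → x ∈ W c → y ∈ W w → ⁅x, y⁆ ∈ A) → ⁅u, v⁆ ∈ A := by
  induction hv with
  | zero b =>
    intro a d u _ _ A _
    rw [lie_zero]
    exact zero_mem A
  | add b x y _ _ h1 h2 =>
    intro a d u hu hd A hA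
    rw [lie_add]
    exact add_mem (h1 a d u hu hd A hA) (h2 a d u hu hd A hA)
  | neg b x _ h1 =>
    intro a d u hu hd A hA
    rw [lie_neg]
    exact neg_mem (h1 a d u hu hd A hA)
  | of w x hw hx =>
    intro a d u hu hd A hA
    exact hA a w u x hd hw hu hx
  | lie b w x y hx hw hy h1 =>
    intro a d u hu hd A hA
    rw [jac]
    refine add_mem ?_ (neg_mem ?_)
    · refine hA (a + b) w _ _ ?_ hw (hW.mul a b u hu x (hx.mem hW)) hy
      rw [← hd]
      ring
    · refine h1 (a + w) d _ (hW.mul a w u hu y hy) ?_ A hA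
      rw [← hd]
      ring

lemma iter_GrF {W : ZMod p → AddSubgroup N} (hW : GrF W) (s : ℕ) : GrF (DW^[s] W) := by
  induction s with
  | zero => exact hW
  | succ s ih =>
    rw [Function.iterate_succ_apply']
    exact ih.DW

lemma iter_le {W : ZMod p → AddSubgroup N} (hW : GrF W) (s : ℕ) (c : ZMod p) :
    (DW^[s] W) c ≤ W c := by
  induction s with
  | zero => exact le_refl _
  | succ s ih =>
    rw [Function.iterate_succ_apply']
    exact (DW_le (iter_GrF hW s) c).trans ih

/-- the family `Sp` as additive subgroups -/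
def SS (k : ℕ) (W : ZMod p → AddSubgroup N) (c : ZMod p) : AddSubgroup N where
  carrier := {x | Sp k W c x}
  zero_mem' := Sp.zero c
  add_mem' := fun {x y} hx hy => Sp.add c x y hx hy
  neg_mem' := fun {x} hx => Sp.neg c x hx

lemma Sp.trans {k j : ℕ} {W H : ZMod p → AddSubgroup N}
    (h : ∀ w : ZMod p, j < w.val → ∀ x ∈ H w, Sp k W w x) {c : ZMod p} {x : N}
    (hx : Sp j H c x) : Sp k W c x := by
  induction hx with
  | zero c => exact Sp.zero c
  | add c x y _ _ h1 h2 => exact Sp.add c x y h1 h2
  | neg c x _ h1 => exact Sp.neg c x h1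
  | of w x hw hx => exact h w hw x hx
  | lie c w x y _ hw hy h1 => exact (h w hw y hy).bracket c x h1

lemma claim [NeZero p] (k : ℕ) : ∃ s : ℕ, ∀ W : ZMod p → AddSubgroup N, GrF W →
    ∀ c, ∀ x ∈ (DW^[s] W) c, Sp k W c x := by
  induction k with
  | zero =>
    refine ⟨0, fun W hW c x hx => ?_⟩
    have hx : x ∈ W c := hx
    rcases eq_or_ne c 0 with rfl | hc
    · rw [hW.zero, AddSubgroup.mem_bot] at hx
      rw [hx]
      exact Sp.zero 0
    · refine Sp.of c x ?_ hx
      exact Nat.pos_of_ne_zero fun h => hc ((ZMod.val_eq_zero c).1 h)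
  | succ j ih =>
    obtain ⟨s, hs⟩ := ih
    refine ⟨s + (s + 1), fun W hW c x hx => ?_⟩
    rw [Function.iterate_add_apply, Function.iterate_succ_apply'] at hx
    have hH := iter_GrF hW s
    have h1 := hs _ hH.DW c x hx
    refine h1.trans fun w hw y hy => ?_
    rcases eq_or_lt_of_le (Nat.succ_le_of_lt hw) with hw1 | hw1
    · -- `w.val = j + 1`
      have h2 : DW (DW^[s] W) w ≤ SS (j + 1) W w := by
        refine iSup_le fun a => br_le fun u hu v hv => ?_
        have hv2 := hs W hW _ v hv
        refine one hW hv2 a w u (iter_le hW s a hu) (add_sub_cancel a w) _ ?_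
        intro c' w' x' y' hcw hjw hx' hy'
        rcases eq_or_ne w' w with rfl | hne
        · have hc0 : c' = 0 := by
            have := congrArg (fun z => z - w') hcw
            simpa using this
          rw [hc0, hW.zero, AddSubgroup.mem_bot] at hx'
          rw [hx', zero_lie]
          exact zero_mem _
        · have h3 : j + 1 < w'.val := by
            refine lt_of_le_of_ne (Nat.succ_le_of_lt hjw) fun h => hne ?_
            apply ZMod.val_injective
            rw [← h, ← hw1]
          have h4 : j + 1 < c'.val := by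
            have h5 : w.val = (c'.val + w'.val) % p := by rw [← hcw, ZMod.val_add]
            have h6 := ZMod.val_lt w'
            have h7 := ZMod.val_lt c'
            by_contra hc
            push Not at hc
            rcases lt_or_ge (c'.val + w'.val) p with h8 | h8
            · rw [Nat.mod_eq_of_lt h8] at h5
              omega
            · rw [Nat.mod_eq_sub_mod h8, Nat.mod_eq_of_lt (by omega)] at h5
              omega
          have := Sp.lie c' w' x' y' (Sp.of c' x' h4 hx') h3 hy'
          rw [hcw] at this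
          exact this
      exact h2 hy
    · exact Sp.of w y hw1 (iter_le hW s w (DW_le hH w hy))

lemma last [NeZero p] {W : ZMod p → AddSubgroup N} {c : ZMod p} {x : N} (hx : Sp (p - 1) W c x) :
    x = 0 := by
  induction hx with
  | zero c => rfl
  | add c x y _ _ h1 h2 => rw [h1, h2, add_zero]
  | neg c x _ h1 => rw [h1, neg_zero]
  | of w x hw _ =>
    have := ZMod.val_lt w
    omega
  | lie c w x y _ hw _ _ =>
    have := ZMod.val_lt w
    omega

end

theorem t : Pool.Agent.Helper52.SG.S_KREK := by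
  intro p _ N _ W hW
  obtain ⟨s, hs⟩ := claim (N := N) (p := p) (p - 1)
  refine ⟨s, fun c => ?_⟩
  rw [eq_bot_iff]
  intro x hx
  rw [AddSubgroup.mem_bot]
  exact last (hs W hW c x hx)

end Pool.Agent.Helper98.SG.KREK
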