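import Pool.Agent.Helper52.SG.Goals2

/-!
# Packet SG-MQ (project SG, MP_0a002a_al): `G/O_r(G)` is `r`-nilpotent
-/

set_option autoImplicit false

namespace Pool.Agent.Helper98.SG.MQ

open Subgroup Pool.Agent.Helper52.SG

lemma aux (hPNQ : S_PNQ) (hMSUB : S_MSUB) {G : Type} [Group G] {r : ℕ} {P : Subgroup G}
    (h : MC r G P) {T : Subgroup G} [T.Normal] (hT : IsOr r T) (S : Subgroup (G ⧸ T))
    (hS0 : S ≠ ⊥) (hS : IsPGroup r S)
    (hP : P.map (QuotientGroup.mk' T) ≤ normalizer (S : Set (G ⧸ T))) :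
    PN r (normalizer (S : Set (G ⧸ T))) := by
  have : Finite G := h.fin
  have hsur := QuotientGroup.mk'_surjective T
  have hpg : IsPGroup r (S.comap (QuotientGroup.mk' T)) := by
    refine hS.comap_of_ker_isPGroup _ ?_
    rw [QuotientGroup.ker_mk']
    exact hT.2.1
  have hN := comap_normalizer_eq_of_surjective S hsur
  have hne : (normalizer (S : Set (G ⧸ T))).comap (QuotientGroup.mk' T) ≠ ⊤ := by
    intro h1
    rw [hN] at h1
    have h2 : (S.comap (QuotientGroup.mk' T)).Normal := normalizer_eq_top_iff.1 h1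
    have h3 := hT.2.2 _ h2 hpg
    apply hS0
    rw [eq_bot_iff]
    intro x hx
    obtain ⟨g, rfl⟩ := hsur x
    have h4 : g ∈ T := h3 hx
    rw [mem_bot]
    exact (QuotientGroup.eq_one_iff g).2 h4
  have hPL : P ≤ (normalizer (S : Set (G ⧸ T))).comap (QuotientGroup.mk' T) :=
    map_le_iff_le_comap.1 hP
  have h1 := hMSUB G r P h _ hPL hne
  have h2 := hPNQ G (G ⧸ T) r (QuotientGroup.mk' T) h.hr _ h1
  rwa [map_comap_eq_self_of_surjective hsur] at h2

theorem t (hPNQ : S_PNQ) (hJP : S_JP) (hZP : S_ZP) (hMSUB : S_MSUB) :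
    Pool.Agent.Helper52.SG.S_MQ := by
  intro G _ r P h T _ hT hT0
  have : Finite G := h.fin
  have : Fact r.Prime := ⟨h.hr⟩
  have hTP : T ≤ P := hT.2.1.le_sylow_of_normal (h.pg.toSylow h.idx)
  have hne : ∃ x ∈ P, x ∉ T := by
    by_contra hc
    push Not at hc
    have hPT : P = T := le_antisymm hc hTP
    apply h.bad
    have h1 : normalizer ((JJ r P : Subgroup G) : Set G) = ⊤ := by
      rw [eq_top_iff]
      intro g _
      rw [mem_normalizer_iff_cj, ← (hJP G r h.hr P).2.2.2.2.2 g]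
      congr 1
      rw [hPT]
      apply mem_normalizer_iff_cj.1
      rw [normalizer_eq_top_iff.2 inferInstance]
      exact mem_top g
    have h2 := h.hJ
    rwa [h1] at h2
  obtain ⟨x, hxP, hxT⟩ := hne
  have hsur := QuotientGroup.mk'_surjective T
  set P' := P.map (QuotientGroup.mk' T) with hP'
  have hpg : IsPGroup r P' := h.pg.map _
  have hidx : ¬ r ∣ P'.index := fun h1 => h.idx (h1.trans (index_map_dvd P hsur))
  have hP0 : P' ≠ ⊥ := by
    intro h1
    have h2 : QuotientGroup.mk' T x ∈ P' := mem_map_of_mem _ hxP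
    rw [h1, mem_bot] at h2
    exact hxT ((QuotientGroup.eq_one_iff x).1 h2)
  have hJ := hJP (G ⧸ T) r h.hr P'
  have hZ := hZP (G ⧸ T) r h.hr P'
  have hJle : JJ r P' ≤ P' := hJ.2.2.1
  have hZle : ZS P' ≤ P' := inf_le_left
  have hcard : Nat.card (G ⧸ T) < Nat.card G := by
    rw [card_eq_card_quotient_mul_card_subgroup T]
    exact lt_mul_of_one_lt_right Nat.card_pos ((one_lt_card_iff_ne_bot T).2 hT0)
  refine h.ind (G ⧸ T) hcard P' hpg hidx ?_ ?_
  · refine aux hPNQ hMSUB h hT _ (hJ.2.1 hpg hP0) (hpg.to_le hJle) fun g hg => ?_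
    rw [mem_normalizer_iff_cj, ← hJ.2.2.2.2.2 g, cj_eq_of_mem hg]
  · refine PN.mono (centralizer_le_normalizer _) ?_
    refine aux hPNQ hMSUB h hT _ (hZ.1 hpg hP0) (hpg.to_le hZle) fun g hg => ?_
    rw [mem_normalizer_iff_cj, ← hZ.2.2 g, cj_eq_of_mem hg]

end Pool.Agent.Helper98.SG.MQ
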